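import Mathlib

open Finset

namespace Pool.Agent.Results.MP_e3e9ef_lc.Linear

/-- `AND_S(x) = ∏_{i ∈ S} x_i`. -/
def AND {n : ℕ} (S : Finset (Fin n)) (x : Fin n → Bool) : ℝ := ∏ i ∈ S, if x i then 1 else 0

/-- `c` is the coefficient family of the Möbius (AND-basis) representation of `f`. -/
def IsMobius {n : ℕ} (f : (Fin n → Bool) → Bool) (c : Finset (Fin n) → ℝ) : Prop :=
  ∀ x, (if f x then 1 else 0 : ℝ) = ∑ S, c S * AND S x

open Classical in
/-- The Möbius support. -/
noncomputable def supp {n : ℕ} (c : Finset (Fin n) → ℝ) : Finset (Finset (Fin n)) := univ.filter (c · ≠ 0)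

/-- The number of distinct Möbius patterns. -/
noncomputable def pat {n : ℕ} (c : Finset (Fin n) → ℝ) : ℕ :=
  (Set.range fun x : Fin n → Bool => fun S : supp c => AND S.1 x).ncard

def mon {k : ℕ} (j : Fin k) (T : Finset (Fin k)) : Finset (Fin (k + k)) :=
  insert (Fin.natAdd k j) (T.map (Fin.castAddEmb k))

lemma ne {k : ℕ} (i j : Fin k) : Fin.castAdd k i ≠ Fin.natAdd k j := by
  simp [Fin.ext_iff]; omega

lemma and_eq {n : ℕ} (S : Finset (Fin n)) (x : Fin n → Bool) : AND S x = if ∀ i ∈ S, x i then 1 else 0 := by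
  simp [AND, prod_boole]

lemma lin (k : ℕ) : ∃ (n : ℕ) (f : (Fin n → Bool) → Bool) (c : Finset (Fin n) → ℝ),
    IsMobius f c ∧ #(supp c) ≤ 2 * k ∧ 2 ^ k ≤ pat c := by
  classical
  let P : (Fin (k + k) → Bool) → Fin k → Prop := fun x j =>
    x (.natAdd k j) ∧ ¬ x (.castAdd k j) ∧ ∀ i < j, x (.castAdd k i)
  let c : Finset (Fin (k + k)) → ℝ := fun S =>
    ∑ j : Fin k, ((if S = mon j (Iio j) then 1 else 0) - if S = mon j (Iic j) then 1 else 0)
  have m : ∀ j, mon j (Iio j) ∈ supp c := fun j => by
    have : ∀ i, mon j (Iio j) ≠ mon i (Iic i) := fun i h => by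
      have a : Fin.natAdd k i ∈ mon j (Iio j) := h ▸ mem_insert_self _ _
      have b : Fin.castAdd k i ∈ mon j (Iio j) := h ▸ mem_insert_of_mem (mem_map_of_mem _ (mem_Iic.2 le_rfl))
      simp only [mon, mem_insert, mem_map, Fin.coe_castAddEmb, ne, exists_false, and_false, or_false, false_or,
        Fin.natAdd_inj, Fin.castAdd_inj, exists_eq_right, mem_Iio] at a b
      exact b.ne a
    simp only [supp, c, this, mem_filter, mem_univ, true_and, if_false, sub_zero]
    exact (sum_pos' (fun _ _ => by positivity) ⟨j, by simp, by simp⟩).ne'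
  refine ⟨k + k, fun x => decide (∃ j, P x j), c, fun x => ?_, ?_, ?_⟩
  · have e : ∀ j, AND (mon j (Iio j)) x - AND (mon j (Iic j)) x = if P x j then 1 else 0 := fun j => by
      simp only [and_eq, mon, P, ← Iio_insert, map_insert, forall_mem_insert, forall_mem_map, mem_Iio]
      by_cases a : x (.natAdd k j) <;> by_cases b : x (.castAdd k j) <;> simp [*]
    simp only [c, sum_mul, sub_mul, ite_mul, one_mul, zero_mul]
    rw [sum_comm]
    simp only [sum_sub_distrib, sum_ite_eq', mem_univ, if_true]
    rw [← sum_sub_distrib]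
    simp only [e, decide_eq_true_eq]
    split_ifs with h
    · obtain ⟨j, h⟩ := h
      rw [sum_eq_single j (fun i _ p => if_neg fun q => ?_) (by simp), if_pos h]
      rcases lt_or_gt_of_ne p with p | p
      exacts [q.2.1 (h.2.2 i p), h.2.1 (q.2.2 j p)]
    · simp [not_exists.1 h]
  · calc _ ≤ #(univ.image (fun j : Fin k => mon j (Iio j)) ∪ univ.image fun j : Fin k => mon j (Iic j)) :=
          card_le_card fun S h => by
            by_contra p
            simp only [mem_union, mem_image, mem_univ, true_and, not_or, not_exists, @eq_comm _ _ S] at p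
            simp [supp, c, p.1, p.2] at h
      _ ≤ _ := (card_union_le _ _).trans (by
        rw [two_mul]; exact add_le_add (card_image_le.trans (by simp)) (card_image_le.trans (by simp)))
  · have := Set.ncard_le_ncard_of_injOn (s := (Set.univ : Set (Fin k → Bool)))
      (t := Set.range fun x : Fin (k + k) → Bool => fun S : supp c => AND S.1 x)
      (fun w S => AND S.1 (Fin.append (fun _ => true) w)) (fun _ _ => ⟨_, rfl⟩) (fun v _ w _ h => by
        ext j
        have := congrFun h ⟨_, m j⟩
        simp only [and_eq, mon, forall_mem_insert, forall_mem_map, Fin.append_right, Fin.coe_castAddEmb,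
          Fin.append_left] at this
        by_cases a : v j <;> by_cases b : w j <;> simp_all)
    simpa [Set.ncard_univ, pat] using this

theorem result (δ C : ℝ) (hδ : 0 < δ) (hC : 0 < C) :
    ∃ (n : ℕ) (f : (Fin n → Bool) → Bool) (c : Finset (Fin n) → ℝ), IsMobius f c ∧
      C * ((supp c).card : ℝ) ^ (1 - δ) < Real.logb 2 (pat c) ∧
      ((supp c).card : ℝ) ≤ 2 * Real.logb 2 (pat c) := by
  have t := ((tendsto_rpow_neg_atTop (lt_min hδ one_pos)).comp tendsto_natCast_atTop_atTop).const_mul (2 * C)
  obtain ⟨k, p, q⟩ := ((t.eventually (gt_mem_nhds (by simp : 2 * C * 0 < (1 : ℝ)))).and (Filter.eventually_ge_atTop 1)).exists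
  obtain ⟨n, f, c, a, b, d⟩ := lin k
  refine ⟨n, f, c, a, ?_⟩
  have k1 : (1 : ℝ) ≤ k := by exact_mod_cast q
  have l : (k : ℝ) ≤ Real.logb 2 (pat c) := by
    rw [Real.le_logb_iff_rpow_le one_lt_two (by exact_mod_cast (by positivity : 0 < 2 ^ k).trans_le d)]
    exact_mod_cast d
  have b' : (#(supp c) : ℝ) ≤ 2 * k := by exact_mod_cast b
  refine ⟨?_, by linarith⟩
  have u : (#(supp c) : ℝ) ^ (1 - δ) ≤ (2 * k) ^ (1 - min δ 1) := by
    rcases le_total δ 1 with h | h
    · rw [min_eq_left h]
      exact Real.rpow_le_rpow (by positivity) (by exact_mod_cast b) (by linarith)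
    · rw [min_eq_right h, sub_self, Real.rpow_zero]
      rcases Nat.eq_zero_or_pos #(supp c) with z | z
      · simpa [z] using Real.zero_rpow_le_one _
      · exact Real.rpow_le_one_of_one_le_of_nonpos (by exact_mod_cast z) (by linarith)
  have v : (2 * k : ℝ) ^ (1 - min δ 1) ≤ 2 * k * k ^ (-min δ 1) := by
    rw [sub_eq_add_neg, Real.rpow_add (by positivity), Real.rpow_one]
    exact mul_le_mul_of_nonneg_left (Real.rpow_le_rpow_of_nonpos (by positivity) (by linarith)
      (by simpa using (lt_min hδ one_pos).le)) (by positivity)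
  simp only [Function.comp] at p
  nlinarith [mul_le_mul_of_nonneg_left (u.trans v) hC.le]

end Pool.Agent.Results.MP_e3e9ef_lc.Linear
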